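import Pool.Agent.H80.LT1
import Pool.Agent.H80.LTDefs2

open Pool.Agent.H80.LT

theorem Pool.Agent.Results.MP_f77be9_al.NoAnti.result :
    ∃ x y z : Module.End ℚ (Fin 3 → ℚ),
      LeonardTriple x y z ∧ ¬ AntiSends (comm x y) (comm x z) :=
  ⟨_, _, _, s_triple, fun ⟨σ, c, h1, h2⟩ => no_anti _ _ _ rfl rfl rfl σ h1 c h2⟩
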